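import Pool.Agent.Q297.BaryFinal

/-!
MP_7c2736: the Poincare constant of Wasserstein barycenters of strongly log-concave measures.
Both questions are answered in the negative, already for three measures on `ℝ⁴`.
-/

namespace Pool.Agent.Results.MP_7c2736_pr.BaryPoincare

open Pool.Agent.Q297.Bary MeasureTheory

/-- Q1 and Q2 are false; moreover one single example with `N = 3`, `n = 4` refutes both: all
three measures split off a curvature-saturating Gaussian factor in one common direction, and
the barycenter violates the inequality of Q1. -/
theorem result : ¬ Q1 ∧ ¬ Q2 ∧ Counter 4 3 :=
  ⟨not_Q1, not_Q2, main_example⟩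

end Pool.Agent.Results.MP_7c2736_pr.BaryPoincare
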